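import Pool.Agent.Helper12.CP.PM

/-!
# Module G3: the typical chord end points are near the tangent line at `e`
-/

namespace Pool.Agent.Helper12.CP

open Complex MeasureTheory Set Filter Topology
open scoped BoundedContinuousFunction
open Pool.Agent.Helper51.CP Pool.Agent.Helper51.CP.CPoly

noncomputable section

lemma ker_formula (P : CPoly) (w : ℂ) (x : P.X) :
    P.ker w x = crs (P.dr x) (w - P.gm x) / (Real.pi * normSq (P.gm x - w)) := by
  unfold CPoly.ker
  rw [im_div']
  have : - crs (P.dr x) (P.gm x - w) = crs (P.dr x) (w - P.gm x) := by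
    rw [crs_sub, crs_sub]; ring
  rw [this, div_div, mul_comm Real.pi]

lemma crs_vertex (P : CPoly) (x : P.X) {k : ℕ} (hk : k ≤ P.N) :
    0 ≤ crs (P.dr x) (P.v k - P.gm x) := by
  rw [crs_zz_gm]
  exact P.left x.1 x.1.2 k hk

/-- **G3** -/
theorem st_G3 : ST_G3 := by
  intro P b0 e Bg hm hker hB hb
  have hpi := Real.pi_pos
  have hD := dr_ne P b0
  have hE := dr_ne P e
  have hDn : 0 < ‖P.dr b0‖ := norm_pos_iff.2 hD
  have hEn : 0 < ‖P.dr e‖ := norm_pos_iff.2 hE
  -- the distance `d`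
  have hcr : 0 < crs (P.dr e) (P.gm b0 - P.gm e) := by
    rw [ker_formula] at hker
    by_contra hc
    push Not at hc
    have : crs (P.dr e) (P.gm b0 - P.gm e) / (Real.pi * normSq (P.gm e - P.gm b0)) ≤ 0 :=
      div_nonpos_of_nonpos_of_nonneg hc (mul_nonneg hpi.le (normSq_nonneg _))
    linarith
  have hne : P.gm e - P.gm b0 ≠ 0 := by
    intro h
    have h2 : P.gm b0 - P.gm e = 0 := by rw [← neg_sub, h, neg_zero]
    rw [h2] at hcr
    simp [crs] at hcr
  set d : ℝ := crs (P.dr e) (P.gm b0 - P.gm e) / ‖P.dr e‖ with hd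
  have hd0 : 0 < d := div_pos hcr hEn
  have hcrd : crs (P.dr e) (P.gm b0 - P.gm e) = ‖P.dr e‖ * d := by
    rw [hd]; field_simp
  set lam : ℂ := (starRingEnd ℂ) (P.dr b0) / ((‖P.dr b0‖ * d : ℝ) : ℂ) with hlam
  have hlamn : ‖lam‖ = 1 / d := by
    rw [hlam, norm_div, RCLike.norm_conj, Complex.norm_real, Real.norm_eq_abs,
      abs_of_pos (by positivity)]
    field_simp
  have hlam0 : lam ≠ 0 := by
    rw [← norm_pos_iff, hlamn]; positivity
  have hlamD : lam * P.dr b0 = ((‖P.dr b0‖ / d : ℝ) : ℂ) := by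
    have h1 : (starRingEnd ℂ) (P.dr b0) * P.dr b0 = ((‖P.dr b0‖ ^ 2 : ℝ) : ℂ) := by
      rw [mul_comm, Complex.mul_conj, Complex.normSq_eq_norm_sq]
    have hx : ((‖P.dr b0‖ : ℝ) : ℂ) ≠ 0 := by exact_mod_cast hDn.ne'
    have hy : ((d : ℝ) : ℂ) ≠ 0 := by exact_mod_cast hd0.ne'
    rw [hlam, div_mul_eq_mul_div, h1]
    push_cast
    field_simp
  have him : ∀ y : ℂ, (lam * y).im = crs (P.dr b0) y / (‖P.dr b0‖ * d) := by
    intro y
    rw [hlam, div_mul_eq_mul_div, Complex.div_ofReal_im]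
    rfl
  set n : ℂ := -I * P.dr e / (((‖P.dr e‖ * d : ℝ) : ℂ) * (starRingEnd ℂ) lam) with hn
  have hnn : ‖n‖ = 1 := by
    rw [hn, norm_div, norm_mul, norm_neg, Complex.norm_I, one_mul, norm_mul, RCLike.norm_conj,
      hlamn, Complex.norm_real, Real.norm_eq_abs, abs_of_pos (by positivity)]
    field_simp
  have hre : ∀ y : ℂ, ((starRingEnd ℂ) n * (lam * y)).re = - crs (P.dr e) y / (‖P.dr e‖ * d) := by
    intro y
    have h1 : (starRingEnd ℂ) n * (lam * y) =
        (I * ((starRingEnd ℂ) (P.dr e) * y)) / ((‖P.dr e‖ * d : ℝ) : ℂ) := by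
      have h2 : ((‖P.dr e‖ * d : ℝ) : ℂ) ≠ 0 := by
        have : (‖P.dr e‖ * d : ℝ) ≠ 0 := by positivity
        exact_mod_cast this
      rw [hn, map_div₀, map_mul, map_mul, map_neg, Complex.conj_I, neg_neg, Complex.conj_ofReal,
        Complex.conj_conj]
      field_simp
    rw [h1, Complex.div_ofReal_re]
    unfold crs
    congr 1
    simp [Complex.mul_re]
  have hre2 : ∀ z : ℂ, ((starRingEnd ℂ) n * (lam * (z - P.gm b0))).re =
      1 - crs (P.dr e) (z - P.gm e) / (‖P.dr e‖ * d) := by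
    intro z
    rw [hre]
    have h1 : z - P.gm b0 = (z - P.gm e) - (P.gm b0 - P.gm e) := by ring
    rw [h1, crs_sub, hcrd]
    have : (‖P.dr e‖ * d : ℝ) ≠ 0 := by positivity
    field_simp
    ring
  refine ⟨lam, n, hnn, ?_, ?_, ?_, ?_, hm, hB, ?_⟩
  · rw [hlamD, Complex.ofReal_re]; positivity
  · rw [hlamD, Complex.ofReal_im]
  · intro k hk
    rw [him]
    exact div_nonneg (crs_vertex P b0 hk) (by positivity)
  · intro k hk
    rw [hre2]
    have : 0 ≤ crs (P.dr e) (P.v k - P.gm e) / (‖P.dr e‖ * d) :=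
      div_nonneg (crs_vertex P e hk) (by positivity)
    linarith
  · intro b hbB
    obtain ⟨h1, h2⟩ := hb b hbB
    rw [hre2]
    have h3 : crs (P.dr e) (P.gm b - P.gm e) ≤ 4 * tt * (‖P.dr e‖ * d) := by
      have htt : (0 : ℝ) < tt := by unfold tt; norm_num
      by_cases hbe : P.gm e - P.gm b = 0
      · have h4 : P.gm b - P.gm e = 0 := by rw [← neg_sub, hbe, neg_zero]
        rw [h4]
        have h5 : crs (P.dr e) 0 = 0 := by simp [crs]
        rw [h5]; positivity
      · rw [ker_formula, ker_formula, hcrd] at h2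
        have hn1 : 0 < normSq (P.gm e - P.gm b) := normSq_pos.2 hbe
        have hn2 : 0 < normSq (P.gm e - P.gm b0) := normSq_pos.2 hne
        have h4 : normSq (P.gm e - P.gm b) ≤ 4 * normSq (P.gm e - P.gm b0) := by
          rw [Complex.normSq_eq_norm_sq, Complex.normSq_eq_norm_sq]
          have h5 : ‖P.gm e - P.gm b‖ ≤ 2 * ‖P.gm e - P.gm b0‖ := by
            calc ‖P.gm e - P.gm b‖ = ‖(P.gm e - P.gm b0) - (P.gm b - P.gm b0)‖ := by
                  congr 1; ring
              _ ≤ ‖P.gm e - P.gm b0‖ + ‖P.gm b - P.gm b0‖ := norm_sub_le _ _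
              _ ≤ _ := by linarith
          have h6 := pow_le_pow_left₀ (norm_nonneg _) h5 2
          nlinarith
        rw [div_le_iff₀ (by positivity)] at h2
        have h7 : tt * (‖P.dr e‖ * d / (Real.pi * normSq (P.gm e - P.gm b0))) *
            (Real.pi * normSq (P.gm e - P.gm b)) =
            tt * (‖P.dr e‖ * d) * (normSq (P.gm e - P.gm b) / normSq (P.gm e - P.gm b0)) := by
          field_simp
        rw [h7] at h2
        have h8 : normSq (P.gm e - P.gm b) / normSq (P.gm e - P.gm b0) ≤ 4 := by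
          rw [div_le_iff₀ hn2]; exact h4
        calc crs (P.dr e) (P.gm b - P.gm e) ≤ _ := h2
          _ ≤ tt * (‖P.dr e‖ * d) * 4 := mul_le_mul_of_nonneg_left h8 (by positivity)
          _ = _ := by ring
    have h4 : crs (P.dr e) (P.gm b - P.gm e) / (‖P.dr e‖ * d) ≤ 4 * tt := by
      rw [div_le_iff₀ (by positivity)]
      exact h3
    linarith

end

end Pool.Agent.Helper12.CP
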