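import Pool.Agent.Helper12.CP.PM

/-!
# Module G4: from the uniform direction law to strip data
-/

namespace Pool.Agent.Helper12.CP

open Complex MeasureTheory Set Filter Topology
open scoped BoundedContinuousFunction
open Pool.Agent.Helper51.CP Pool.Agent.Helper51.CP.CPoly

noncomputable section

lemma pick (hD : ST_DIR) (P : CPoly) (b0 : P.X) {Bg : Set P.X} (hm : MeasurableSet Bg)
    (hB : ENNReal.ofReal (1 - 2 * tt) ≤ P.Pm b0 Bg) {α β : ℝ} (h0 : 0 ≤ α) (h1 : β ≤ Real.pi)
    (hlen : 0.002 * Real.pi < β - α) : ∃ b ∈ Bg, P.ang b0 b ∈ Ioo α β := by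
  by_contra hc
  push Not at hc
  have hpi := Real.pi_pos
  have hang := measurable_ang P b0
  have hmap := hD P b0
  have e1 : P.Pm b0 (P.ang b0 ⁻¹' Ioo α β) = ENNReal.ofReal ((β - α) / Real.pi) := by
    rw [← Measure.map_apply hang measurableSet_Ioo, hmap, Measure.smul_apply,
      Measure.restrict_apply measurableSet_Ioo]
    have : Ioo α β ∩ Ioo 0 Real.pi = Ioo α β :=
      inter_eq_left.2 (Ioo_subset_Ioo h0 h1)
    rw [this, Real.volume_Ioo, smul_eq_mul, ← ENNReal.ofReal_mul (by positivity)]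
    congr 1
    ring
  have e2 : P.Pm b0 univ = 1 := by
    have : P.Pm b0 (P.ang b0 ⁻¹' univ) = 1 := by
      rw [← Measure.map_apply hang MeasurableSet.univ, hmap, Measure.smul_apply,
        Measure.restrict_apply_univ, Real.volume_Ioo, smul_eq_mul,
        ← ENNReal.ofReal_mul (by positivity)]
      have : 1 / Real.pi * (Real.pi - 0) = 1 := by field_simp; ring
      rw [this, ENNReal.ofReal_one]
    simpa using this
  have hdisj : Disjoint (P.ang b0 ⁻¹' Ioo α β) Bg := by
    rw [Set.disjoint_left]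
    intro b hb hb2
    exact hc b hb2 hb
  have e3 : P.Pm b0 (P.ang b0 ⁻¹' Ioo α β) + P.Pm b0 Bg ≤ 1 := by
    rw [← measure_union hdisj hm, ← e2]
    exact measure_mono (subset_univ _)
  have e4 : ENNReal.ofReal ((β - α) / Real.pi) + ENNReal.ofReal (1 - 2 * tt) ≤ 1 := by
    rw [e1] at e3
    exact (add_le_add le_rfl hB).trans e3
  have ht : (0 : ℝ) ≤ 1 - 2 * tt := by unfold tt; norm_num
  have hpos : 0 ≤ (β - α) / Real.pi := by
    apply div_nonneg _ hpi.le
    nlinarith
  rw [← ENNReal.ofReal_add hpos ht, ← ENNReal.ofReal_one,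
    ENNReal.ofReal_le_ofReal_iff zero_le_one] at e4
  have e5 : 0.002 < (β - α) / Real.pi := by
    rw [lt_div_iff₀ hpi]
    exact hlen
  unfold tt at e4
  linarith

/-- polar form of the normalised coordinate -/
lemma polar (P : CPoly) (b0 : P.X) {lam : ℂ} (hre : 0 < (lam * P.dr b0).re)
    (him : (lam * P.dr b0).im = 0) (b : P.X) : ∃ r : ℝ, 0 ≤ r ∧
    (lam * (P.gm b - P.gm b0)).re = r * Real.cos (P.ang b0 b) ∧
    (lam * (P.gm b - P.gm b0)).im = r * Real.sin (P.ang b0 b) := by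
  have hd := dr_ne P b0
  set w := (P.gm b - P.gm b0) / P.dr b0 with hw
  have hq : lam * (P.gm b - P.gm b0) = (((lam * P.dr b0).re : ℝ) : ℂ) * w := by
    have h1 : (((lam * P.dr b0).re : ℝ) : ℂ) = lam * P.dr b0 := by
      apply Complex.ext
      · simp
      · simpa using him.symm
    rw [h1, hw]
    field_simp
  have ha : P.ang b0 b = w.arg := rfl
  refine ⟨(lam * P.dr b0).re * ‖w‖, by positivity, ?_, ?_⟩
  · rw [hq, Complex.re_ofReal_mul, ha, mul_assoc, Complex.norm_mul_cos_arg]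
  · rw [hq, Complex.im_ofReal_mul, ha, mul_assoc, Complex.norm_mul_sin_arg]

lemma conj_mul_re (n q : ℂ) : ((starRingEnd ℂ) n * q).re = n.re * q.re + n.im * q.im := by
  simp [Complex.mul_re]

lemma gm_hull (P : CPoly) (b0 b : P.X) (lam : ℂ) : lam * (P.gm b - P.gm b0) ∈
    convexHull ℝ {z : ℂ | ∃ k ≤ P.N, z = lam * (P.v k - P.gm b0)} := by
  have h1 : lam * (P.v b.1 - P.gm b0) ∈
      convexHull ℝ {z : ℂ | ∃ k ≤ P.N, z = lam * (P.v k - P.gm b0)} :=
    subset_convexHull ℝ _ ⟨b.1, b.1.2.le, rfl⟩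
  have h2 : lam * (P.v ((b.1 : ℕ) + 1) - P.gm b0) ∈
      convexHull ℝ {z : ℂ | ∃ k ≤ P.N, z = lam * (P.v k - P.gm b0)} :=
    subset_convexHull ℝ _ ⟨(b.1 : ℕ) + 1, b.1.2, rfl⟩
  have h3 := (convex_convexHull ℝ _) h1 h2 (a := 1 - (b.2 : ℝ)) (b := (b.2 : ℝ))
    (by have := b.2.2.2; linarith) b.2.2.1.le (by ring)
  have e : lam * (P.gm b - P.gm b0) = (1 - (b.2 : ℝ)) • (lam * (P.v b.1 - P.gm b0)) +
      (b.2 : ℝ) • (lam * (P.v ((b.1 : ℕ) + 1) - P.gm b0)) := by
    simp only [Complex.real_smul]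
    unfold gm side
    push_cast
    ring
  rw [e]
  exact h3

/-- **G4** -/
theorem st_G4 : ST_G4 := by
  intro hD P b0 lam n Bg hN
  obtain ⟨hn, hre, him, hv1, hv2, hm, hB, hb⟩ := hN
  have hpi := Real.pi_pos
  have hpi3 := Real.pi_gt_three
  have hpi4 : Real.pi < 3.1416 := Real.pi_lt_d4
  have hnn : n.re ^ 2 + n.im ^ 2 = 1 := by
    have h1 := Complex.sq_norm n
    rw [hn, Complex.normSq_apply] at h1
    nlinarith
  -- the inequality for points of `Bg`
  have key : ∀ b ∈ Bg, ∃ r : ℝ, 0 ≤ r ∧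
      (lam * (P.gm b - P.gm b0)).re = r * Real.cos (P.ang b0 b) ∧
      (lam * (P.gm b - P.gm b0)).im = r * Real.sin (P.ang b0 b) ∧
      0.996 ≤ r * (n.re * Real.cos (P.ang b0 b) + n.im * Real.sin (P.ang b0 b)) ∧
      0.996 ≤ ((starRingEnd ℂ) n * (lam * (P.gm b - P.gm b0))).re := by
    intro b hbB
    obtain ⟨r, hr, h1, h2⟩ := polar P b0 hre him b
    have h3 := hb b hbB
    have h4 : (1 - 4 * tt : ℝ) = 0.996 := by unfold tt; norm_num
    rw [h4] at h3
    refine ⟨r, hr, h1, h2, ?_, h3⟩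
    rw [conj_mul_re, h1, h2] at h3
    linarith
  have hpos : ∀ b ∈ Bg, 0 < n.re * Real.cos (P.ang b0 b) + n.im * Real.sin (P.ang b0 b) := by
    intro b hbB
    obtain ⟨r, hr, -, -, h3, -⟩ := key b hbB
    by_contra hc
    push Not at hc
    have := mul_nonpos_of_nonneg_of_nonpos hr hc
    linarith
  have him0 : 0 < n.im := by
    by_contra hc
    push Not at hc
    rcases le_total 0 n.re with h | h
    · obtain ⟨b, hbB, hb1, hb2⟩ := pick hD P b0 hm hB (α := Real.pi / 2) (β := Real.pi)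
        (by linarith) le_rfl (by nlinarith)
      have h1 := hpos b hbB
      have h2 : Real.cos (P.ang b0 b) ≤ 0 :=
        Real.cos_nonpos_of_pi_div_two_le_of_le hb1.le (by linarith)
      have h3 : 0 ≤ Real.sin (P.ang b0 b) :=
        Real.sin_nonneg_of_nonneg_of_le_pi (by linarith) hb2.le
      nlinarith [mul_nonneg h (neg_nonneg.2 h2), mul_nonneg (neg_nonneg.2 hc) h3]
    · obtain ⟨b, hbB, hb1, hb2⟩ := pick hD P b0 hm hB (α := 0) (β := Real.pi / 2)
        le_rfl (by linarith) (by nlinarith)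
      have h1 := hpos b hbB
      have h2 : 0 ≤ Real.cos (P.ang b0 b) :=
        Real.cos_nonneg_of_mem_Icc ⟨by linarith, hb2.le⟩
      have h3 : 0 ≤ Real.sin (P.ang b0 b) :=
        Real.sin_nonneg_of_nonneg_of_le_pi hb1.le (by linarith)
      nlinarith [mul_nonneg (neg_nonneg.2 h) h2, mul_nonneg (neg_nonneg.2 hc) h3]
  have him1 : n.im ≤ 1 := by nlinarith [sq_nonneg n.re]
  have hre1 : n.re ≤ 0.0063 := by
    by_contra hc
    push Not at hc
    obtain ⟨b, hbB, hb1, hb2⟩ := pick hD P b0 hm hB (α := Real.pi - 0.00629) (β := Real.pi)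
      (by linarith) le_rfl (by nlinarith)
    have h1 := hpos b hbB
    set s := Real.pi - P.ang b0 b with hs
    have hs0 : 0 < s := by linarith
    have hs1 : s < 0.00629 := by linarith
    have e1 : P.ang b0 b = Real.pi - s := by linarith
    rw [e1, Real.cos_pi_sub, Real.sin_pi_sub] at h1
    have h2 := Real.one_sub_sq_div_two_le_cos (x := s)
    have h3 := Real.sin_le hs0.le
    have h4 : 0 ≤ Real.sin s := Real.sin_nonneg_of_nonneg_of_le_pi hs0.le (by linarith)
    have h5 : n.im * Real.sin s ≤ s := by nlinarith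
    have h6 : (0.0063 : ℝ) * (1 - s ^ 2 / 2) ≤ n.re * Real.cos s := by
      have : (0 : ℝ) ≤ 1 - s ^ 2 / 2 := by nlinarith
      exact mul_le_mul hc.le h2 this (by linarith)
    nlinarith
  have hre2 : -0.0063 ≤ n.re := by
    by_contra hc
    push Not at hc
    obtain ⟨b, hbB, hb1, hb2⟩ := pick hD P b0 hm hB (α := 0) (β := 0.00629)
      le_rfl (by linarith) (by nlinarith)
    have h1 := hpos b hbB
    set s := P.ang b0 b with hs
    have h2 := Real.one_sub_sq_div_two_le_cos (x := s)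
    have h3 := Real.sin_le hb1.le
    have h4 : 0 ≤ Real.sin s := Real.sin_nonneg_of_nonneg_of_le_pi hb1.le (by linarith)
    have h5 : n.im * Real.sin s ≤ s := by nlinarith
    have h6 : (0.0063 : ℝ) * (1 - s ^ 2 / 2) ≤ (-n.re) * Real.cos s := by
      have : (0 : ℝ) ≤ 1 - s ^ 2 / 2 := by nlinarith
      exact mul_le_mul (by linarith) h2 this (by linarith)
    nlinarith
  have hreabs : |n.re| ≤ 0.0063 := abs_le.2 ⟨hre2, hre1⟩
  have himlow : 0.99998 ≤ n.im := by
    have h1 : n.re ^ 2 ≤ 0.0063 ^ 2 := by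
      rw [← sq_abs]
      exact pow_le_pow_left₀ (abs_nonneg _) hreabs 2
    nlinarith
  refine ⟨hn, hre, him, hv1, hv2, hreabs, himlow, ?_⟩
  obtain ⟨b1, hb1B, hb11, hb12⟩ := pick hD P b0 hm hB (α := 0) (β := 0.0095)
    le_rfl (by linarith) (by nlinarith)
  obtain ⟨b2, hb2B, hb21, hb22⟩ := pick hD P b0 hm hB (α := Real.pi - 0.0095) (β := Real.pi)
    (by linarith) le_rfl (by nlinarith)
  obtain ⟨r, hr, q1, q2, q3, q4⟩ := key b1 hb1B
  obtain ⟨r', hr', p1, p2, p3, p4⟩ := key b2 hb2B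
  -- first point
  set s := P.ang b0 b1 with hs
  have a2 := Real.one_sub_sq_div_two_le_cos (x := s)
  have a3 := Real.sin_le hb11.le
  have a4 : 0 ≤ Real.sin s := Real.sin_nonneg_of_nonneg_of_le_pi hb11.le (by linarith)
  have a5 : (0.9999 : ℝ) ≤ Real.cos s := by nlinarith
  have a6 := Real.cos_le_one s
  have a7 : n.re * Real.cos s + n.im * Real.sin s ≤ 0.0158 := by
    have h5 : n.im * Real.sin s ≤ s := by nlinarith
    have h6 : n.re * Real.cos s ≤ 0.0063 := by
      rcases le_total 0 n.re with h | h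
      · nlinarith
      · nlinarith
    linarith
  have a8 : 63 ≤ r := by
    by_contra hc
    push Not at hc
    have : r * (n.re * Real.cos s + n.im * Real.sin s) ≤ r * 0.0158 :=
      mul_le_mul_of_nonneg_left a7 hr
    nlinarith
  -- second point
  set t := Real.pi - P.ang b0 b2 with ht
  have ht0 : 0 < t := by linarith
  have ht1 : t < 0.0095 := by linarith
  have e1 : P.ang b0 b2 = Real.pi - t := by linarith
  rw [e1, Real.cos_pi_sub] at p1
  rw [e1, Real.sin_pi_sub] at p2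
  rw [e1, Real.cos_pi_sub, Real.sin_pi_sub] at p3
  have c2 := Real.one_sub_sq_div_two_le_cos (x := t)
  have c3 := Real.sin_le ht0.le
  have c4 : 0 ≤ Real.sin t := Real.sin_nonneg_of_nonneg_of_le_pi ht0.le (by linarith)
  have c5 : (0.9999 : ℝ) ≤ Real.cos t := by nlinarith
  have c6 := Real.cos_le_one t
  have c7 : n.re * -Real.cos t + n.im * Real.sin t ≤ 0.0158 := by
    have h5 : n.im * Real.sin t ≤ t := by nlinarith
    have h6 : n.re * -Real.cos t ≤ 0.0063 := by
      rcases le_total 0 n.re with h | h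
      · nlinarith
      · nlinarith
    linarith
  have c8 : 63 ≤ r' := by
    by_contra hc
    push Not at hc
    have : r' * (n.re * -Real.cos t + n.im * Real.sin t) ≤ r' * 0.0158 :=
      mul_le_mul_of_nonneg_left c7 hr'
    nlinarith
  refine ⟨lam * (P.gm b1 - P.gm b0), lam * (P.gm b2 - P.gm b0), gm_hull P b0 b1 lam,
    gm_hull P b0 b2 lam, ?_, ?_, ?_, ?_, ?_, ?_, q4, p4⟩
  · rw [q1]; nlinarith
  · rw [q2]; positivity
  · rw [q1, q2]
    have : Real.sin s ≤ 0.0096 * Real.cos s := by nlinarith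
    nlinarith
  · rw [p1]; nlinarith
  · rw [p2]; positivity
  · rw [p1, p2]
    have : Real.sin t ≤ 0.0096 * Real.cos t := by nlinarith
    nlinarith

end

end Pool.Agent.Helper12.CP
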