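import Pool.Agent.Helper12.CP.PM

/-!
# Module G5: choice of a good point on the top side
-/

namespace Pool.Agent.Helper12.CP

open Complex MeasureTheory Set Filter Topology
open scoped BoundedContinuousFunction
open Pool.Agent.Helper51.CP Pool.Agent.Helper51.CP.CPoly

noncomputable section

/-- **G5** -/
theorem st_G5 : ST_G5 := by
  intro hD P b0 lam n _ F hF hint
  by_contra hc
  push Not at hc
  have hpi := Real.pi_pos
  have hpi3 : 3.1415 < Real.pi := Real.pi_gt_d4
  have hpi4 : Real.pi < 3.1416 := Real.pi_lt_d4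
  have hang := measurable_ang P b0
  have hmap := hD P b0
  set E : Set P.X := P.ang b0 ⁻¹' Icc 0.9 (Real.pi - 0.9) with hE
  have hEm : MeasurableSet E := hang measurableSet_Icc
  have e1 : P.Pm b0 E = ENNReal.ofReal ((Real.pi - 1.8) / Real.pi) := by
    rw [hE, ← Measure.map_apply hang measurableSet_Icc, hmap, Measure.smul_apply,
      Measure.restrict_apply measurableSet_Icc]
    have : Icc (0.9 : ℝ) (Real.pi - 0.9) ∩ Ioo 0 Real.pi = Icc 0.9 (Real.pi - 0.9) := by
      refine inter_eq_left.2 fun x hx => ?_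
      exact ⟨by linarith [hx.1], by linarith [hx.2]⟩
    rw [this, Real.volume_Icc, smul_eq_mul, ← ENNReal.ofReal_mul (by positivity)]
    congr 1
    ring
  have e2 : ENNReal.ofReal (40 * eps0) * P.Pm b0 E ≤ ∫⁻ b, F b ∂(P.Pm b0) := by
    calc ENNReal.ofReal (40 * eps0) * P.Pm b0 E = ∫⁻ _ in E, ENNReal.ofReal (40 * eps0) ∂(P.Pm b0) := by
          rw [setLIntegral_const]
      _ ≤ ∫⁻ b in E, F b ∂(P.Pm b0) := by
          refine setLIntegral_mono hF fun b hb => ?_
          by_contra hlt
          push Not at hlt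
          exact absurd hb.2 (not_le.2 (hc b hlt.le hb.1))
      _ ≤ ∫⁻ b, F b ∂(P.Pm b0) := setLIntegral_le_lintegral _ _
  have e3 := e2.trans hint
  have hep : (0 : ℝ) < eps0 := by unfold eps0; norm_num
  rw [e1, ← ENNReal.ofReal_mul (by positivity), ENNReal.ofReal_le_ofReal_iff (by positivity)] at e3
  have e4 : 0.42 ≤ (Real.pi - 1.8) / Real.pi := by
    rw [le_div_iff₀ hpi]
    linarith
  nlinarith

end

end Pool.Agent.Helper12.CP
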