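import Pool.Agent.Helper51.CP.Defs

/-!
# Modules PM and DIR: the chord measures and the direction law
-/

namespace Pool.Agent.Helper12.CP

open Complex MeasureTheory Set Filter Topology
open scoped BoundedContinuousFunction
open Pool.Agent.Helper51.CP Pool.Agent.Helper51.CP.CPoly

noncomputable section

/-! ## crs -/

lemma crs_self_mul (a : ℂ) (s : ℝ) : crs a (s * a) = 0 := by
  simp [crs, Complex.mul_im, Complex.mul_re]
  ring

lemma crs_add (a b c : ℂ) : crs a (b + c) = crs a b + crs a c := by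
  simp [crs, mul_add]

lemma crs_sub (a b c : ℂ) : crs a (b - c) = crs a b - crs a c := by
  simp [crs, mul_sub]

lemma crs_smul (a b : ℂ) (s : ℝ) : crs a (s * b) = s * crs a b := by
  simp [crs, Complex.mul_im, Complex.mul_re]
  ring

lemma im_div (a d : ℂ) : (a / d).im = crs d a / normSq d := by
  rw [Complex.div_im]
  simp only [crs, Complex.mul_im, Complex.conj_re, Complex.conj_im]
  ring

lemma im_div' (d g : ℂ) : (d / g).im = - crs d g / normSq g := by
  rw [Complex.div_im]
  simp only [crs, Complex.mul_im, Complex.conj_re, Complex.conj_im]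
  ring

variable (P : CPoly)

lemma side_ne {j : ℕ} (hj : j < P.N) : P.side j ≠ 0 := sub_ne_zero.2 (P.nd j hj)

/-- point of the closed side `k` -/
def zz (k : ℕ) (u : ℝ) : ℂ := P.v k + (u : ℂ) * P.side k

/-- kernel as a function of a real parameter -/
def kerF (w : ℂ) (k : ℕ) (u : ℝ) : ℝ := (P.side k / (zz P k u - w)).im / Real.pi

lemma ker_eq (w : ℂ) (x : P.X) : P.ker w x = kerF P w x.1 x.2 := rfl

lemma crs_side_zz {j : ℕ} (w : ℂ) (u : ℝ) :
    crs (P.side j) (zz P j u - w) = - crs (P.side j) (w - P.v j) := by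
  have : zz P j u - w = (u : ℂ) * P.side j - (w - P.v j) := by unfold zz; ring
  rw [this, crs_sub, crs_self_mul, zero_sub]

lemma kerF_nonneg {w : ℂ} {j : ℕ} (h : 0 ≤ crs (P.side j) (w - P.v j)) (u : ℝ) :
    0 ≤ kerF P w j u := by
  unfold kerF
  rw [im_div', crs_side_zz, neg_neg]
  have := Real.pi_pos
  have := Complex.normSq_nonneg (zz P j u - w)
  positivity

lemma crs_zz {j k : ℕ} (hj : j < P.N) (hk : k < P.N) {u : ℝ} (h0 : 0 ≤ u) (h1 : u ≤ 1) :
    0 ≤ crs (P.side j) (zz P k u - P.v j) := by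
  have e : zz P k u - P.v j = ((1 - u : ℝ) : ℂ) * (P.v k - P.v j) +
      (u : ℂ) * (P.v (k + 1) - P.v j) := by
    unfold zz side; push_cast; ring
  rw [e, crs_add, crs_smul, crs_smul]
  have h2 := P.left j hj k hk.le
  have h3 := P.left j hj (k + 1) hk
  have h4 : 0 ≤ 1 - u := by linarith
  exact add_nonneg (mul_nonneg h4 h2) (mul_nonneg h0 h3)

lemma gm_eq (b : P.X) : P.gm b = zz P b.1 b.2 := rfl

lemma crs_gm (b : P.X) {j : ℕ} (hj : j < P.N) : 0 ≤ crs (P.side j) (P.gm b - P.v j) :=
  crs_zz P hj b.1.2 b.2.2.1.le b.2.2.2.le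

/-! ## The normalised coordinate seen from `b` -/

/-- `w_k(u) = (z_k(u) - gm b) / dr b`. -/
def ww (b : P.X) (k : ℕ) (u : ℝ) : ℂ := (zz P k u - P.gm b) / P.dr b

lemma dr_ne (b : P.X) : P.dr b ≠ 0 := side_ne P b.1.2

lemma crs_zz_gm (b : P.X) (z : ℂ) :
    crs (P.dr b) (z - P.gm b) = crs (P.side b.1) (z - P.v b.1) := by
  have e : z - P.gm b = (z - P.v b.1) - ((b.2 : ℝ) : ℂ) * P.side b.1 := by
    unfold gm; ring
  have e2 : P.dr b = P.side b.1 := rfl
  rw [e, e2, crs_sub, crs_self_mul, sub_zero]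

lemma ww_im (b : P.X) {k : ℕ} (hk : k < P.N) {u : ℝ} (h0 : 0 ≤ u) (h1 : u ≤ 1) :
    0 ≤ (ww P b k u).im := by
  unfold ww
  rw [im_div, crs_zz_gm]
  exact div_nonneg (crs_zz P b.1.2 hk h0 h1) (Complex.normSq_nonneg _)

lemma zz_ne (b : P.X) {k : ℕ} (hk : k < P.N) (hne : (b.1 : ℕ) ≠ k) (u : ℝ) :
    zz P k u - P.gm b ≠ 0 := by
  intro h
  have h1 := P.strict b.1 b.1.2 k hk hne b.2 b.2.2.1 b.2.2.2
  have h2 : P.v b.1 + ((b.2 : ℝ) : ℂ) * (P.v ((b.1 : ℕ) + 1) - P.v b.1) - P.v k =
      (u : ℂ) * (P.v (k + 1) - P.v k) := by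
    have h3 : zz P k u = P.gm b := sub_eq_zero.1 h
    have h4 : P.gm b = P.v b.1 + ((b.2 : ℝ) : ℂ) * (P.v ((b.1 : ℕ) + 1) - P.v b.1) := rfl
    rw [← h4, ← h3]
    unfold zz side; ring
  rw [h2, crs_self_mul] at h1
  exact lt_irrefl _ h1

lemma ww_ne (b : P.X) {k : ℕ} (hk : k < P.N) (hne : (b.1 : ℕ) ≠ k) (u : ℝ) :
    ww P b k u ≠ 0 := div_ne_zero (zz_ne P b hk hne u) (dr_ne P b)

lemma arg_eq {w : ℂ} (h : 0 ≤ w.im) (hw : w ≠ 0) :
    w.arg = (Complex.log (-I * w)).im + Real.pi / 2 := by
  have e1 : w = I * (-I * w) := by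
    rw [← mul_assoc]
    simp
  have hre : 0 ≤ (-I * w).re := by simpa using h
  have hne : -I * w ≠ 0 := mul_ne_zero (by simp) hw
  have ha : |(-I * w).arg| ≤ Real.pi / 2 := by
    rw [Complex.abs_arg_le_pi_div_two_iff]
    exact hre
  have h2 : (I * (-I * w)).arg = I.arg + (-I * w).arg := by
    rw [Complex.arg_mul_eq_add_arg_iff Complex.I_ne_zero hne, Complex.arg_I]
    rw [abs_le] at ha
    have := Real.pi_pos
    constructor <;> linarith [ha.1, ha.2]
  rw [Complex.log_im]
  conv_lhs => rw [e1]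
  rw [h2, Complex.arg_I]
  ring

lemma slit {w : ℂ} (h : 0 ≤ w.im) (hw : w ≠ 0) : -I * w ∈ Complex.slitPlane := by
  rw [Complex.mem_slitPlane_iff]
  have hre : (-I * w).re = w.im := by simp
  have him : (-I * w).im = - w.re := by simp
  rw [hre, him]
  rcases h.eq_or_lt with h0 | h0
  · right
    intro h1
    apply hw
    apply Complex.ext
    · simpa using h1
    · exact h0.symm
  · exact Or.inl h0

lemma zz_deriv (k : ℕ) (u : ℝ) : HasDerivAt (fun u : ℝ => zz P k u) (P.side k) u := by
  unfold zz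
  have h1 : HasDerivAt (fun u : ℝ => (u : ℂ)) 1 u := Complex.ofRealCLM.hasDerivAt
  have h2 := (h1.mul_const (P.side k)).const_add (P.v k)
  simpa using h2

/-- derivative of the angle -/
lemma arg_deriv (b : P.X) {k : ℕ} (hk : k < P.N) (hne : (b.1 : ℕ) ≠ k) {u : ℝ} (h0 : 0 ≤ u)
    (h1 : u ≤ 1) : HasDerivAt (fun u : ℝ => (Complex.log (-I * ww P b k u)).im + Real.pi / 2)
      (Real.pi * kerF P (P.gm b) k u) u := by
  have h2 : HasDerivAt (fun u : ℝ => -I * ww P b k u) (-I * (P.side k / P.dr b)) u := by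
    unfold ww
    exact (((zz_deriv P k u).sub_const _).div_const _).const_mul _
  have h3 := h2.clog_real (slit (ww_im P b hk h0 h1) (ww_ne P b hk hne u))
  have h4 : HasDerivAt (fun u : ℝ => (Complex.log (-I * ww P b k u)).im)
      ((-I * (P.side k / P.dr b) / (-I * ww P b k u)).im) u :=
    (Complex.imCLM.hasFDerivAt.comp_hasDerivAt u h3)
  have e : (-I * (P.side k / P.dr b) / (-I * ww P b k u)).im =
      Real.pi * kerF P (P.gm b) k u := by
    have hd := dr_ne P b
    have hz := zz_ne P b hk hne u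
    have e1 : -I * (P.side k / P.dr b) / (-I * ww P b k u) = P.side k / (zz P k u - P.gm b) := by
      unfold ww
      have hI : (-I : ℂ) ≠ 0 := by simp
      rw [mul_div_mul_left _ _ hI]
      field_simp
    rw [e1]
    unfold kerF
    field_simp
  rw [e] at h4
  exact h4.add_const _

lemma kerF_cont (b : P.X) {k : ℕ} (hk : k < P.N) (hne : (b.1 : ℕ) ≠ k) :
    Continuous (fun u : ℝ => kerF P (P.gm b) k u) := by
  unfold kerF
  refine Continuous.div_const (Complex.continuous_im.comp ?_) _
  refine Continuous.div continuous_const ?_ (fun u => zz_ne P b hk hne u)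
  unfold zz
  fun_prop

lemma kerF_self (b : P.X) (u : ℝ) : kerF P (P.gm b) b.1 u = 0 := by
  unfold kerF
  rw [im_div']
  have e : zz P b.1 u - P.gm b = ((u - b.2 : ℝ) : ℂ) * P.side b.1 := by
    rw [gm_eq]; unfold zz; push_cast; ring
  rw [e, crs_self_mul]
  simp

/-- argument of the vertex `k` seen from `b` -/
def AA (b : P.X) (k : ℕ) : ℝ := ((P.v k - P.gm b) / P.dr b).arg

lemma AA_self (b : P.X) : AA P b b.1 = Real.pi := by
  unfold AA
  have e : (P.v b.1 - P.gm b) / P.dr b = ((-(b.2 : ℝ) : ℝ) : ℂ) := by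
    have hd : P.side b.1 ≠ 0 := dr_ne P b
    rw [gm_eq]; unfold zz dr
    push_cast
    field_simp
    ring
  rw [e]
  exact Complex.arg_ofReal_of_neg (by have := b.2.2.1; linarith)

lemma AA_succ (b : P.X) : AA P b ((b.1 : ℕ) + 1) = 0 := by
  unfold AA
  have e : (P.v ((b.1 : ℕ) + 1) - P.gm b) / P.dr b = ((1 - (b.2 : ℝ) : ℝ) : ℂ) := by
    have hd : P.side b.1 ≠ 0 := dr_ne P b
    have hs : P.v ((b.1 : ℕ) + 1) = P.v b.1 + P.side b.1 := by unfold side; ring
    rw [gm_eq, hs]; unfold zz dr
    push_cast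
    field_simp
    ring
  rw [e]
  exact Complex.arg_ofReal_of_nonneg (by have := b.2.2.2; linarith)

/-- the fundamental theorem of calculus on one side -/
lemma ftc_side (b : P.X) {k : ℕ} (hk : k < P.N) (hne : (b.1 : ℕ) ≠ k) {U f : ℝ → ℝ}
    (hU : ∀ t, HasDerivAt U (f t) t) (hf : Continuous f) :
    ∫ u in (0 : ℝ)..1, f ((ww P b k u).arg) * kerF P (P.gm b) k u =
      (U (AA P b (k + 1)) - U (AA P b k)) / Real.pi := by
  have hpi := Real.pi_pos
  set Th : ℝ → ℝ := fun u => (Complex.log (-I * ww P b k u)).im + Real.pi / 2 with hTh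
  have hThe : ∀ u ∈ Icc (0 : ℝ) 1, (ww P b k u).arg = Th u := fun u hu =>
    arg_eq (ww_im P b hk hu.1 hu.2) (ww_ne P b hk hne u)
  have e1 : ∫ u in (0 : ℝ)..1, f ((ww P b k u).arg) * kerF P (P.gm b) k u =
      ∫ u in (0 : ℝ)..1, (f (Th u) * (Real.pi * kerF P (P.gm b) k u)) / Real.pi := by
    refine intervalIntegral.integral_congr fun u hu => ?_
    rw [uIcc_of_le zero_le_one] at hu
    rw [hThe u hu]
    field_simp
  rw [e1, intervalIntegral.integral_div]
  congr 1
  have hder : ∀ u ∈ uIcc (0 : ℝ) 1, HasDerivAt (fun u => U (Th u))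
      (f (Th u) * (Real.pi * kerF P (P.gm b) k u)) u := by
    intro u hu
    rw [uIcc_of_le zero_le_one] at hu
    exact (hU (Th u)).comp u (arg_deriv P b hk hne hu.1 hu.2)
  have hThc : ContinuousOn Th (uIcc (0 : ℝ) 1) := by
    intro u hu
    rw [uIcc_of_le zero_le_one] at hu
    exact (arg_deriv P b hk hne hu.1 hu.2).continuousAt.continuousWithinAt
  rw [intervalIntegral.integral_eq_sub_of_hasDerivAt hder
    (((hf.comp_continuousOn hThc).mul
      (continuous_const.mul (kerF_cont P b hk hne)).continuousOn).intervalIntegrable)]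
  have e2 : Th 1 = AA P b (k + 1) := by
    rw [← hThe 1 ⟨zero_le_one, le_rfl⟩]
    unfold ww AA zz side
    congr 2
    push_cast; ring
  have e3 : Th 0 = AA P b k := by
    rw [← hThe 0 ⟨le_rfl, zero_le_one⟩]
    unfold ww AA zz
    congr 2
    push_cast; ring
  simp only [e2, e3]

/-- sum over all sides -/
lemma sum_sides (b : P.X) {U f : ℝ → ℝ} (hU : ∀ t, HasDerivAt U (f t) t) (hf : Continuous f) :
    ∑ k : Fin P.N, ∫ u in (0 : ℝ)..1, f ((ww P b k u).arg) * kerF P (P.gm b) k u =
      (U Real.pi - U 0) / Real.pi := by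
  have hterm : ∀ k : Fin P.N, ∫ u in (0 : ℝ)..1, f ((ww P b k u).arg) * kerF P (P.gm b) k u =
      (U (AA P b ((k : ℕ) + 1)) - U (AA P b k)) / Real.pi -
        (if k = b.1 then (U (AA P b ((k : ℕ) + 1)) - U (AA P b k)) / Real.pi else 0) := by
    intro k
    by_cases h : k = b.1
    · rw [if_pos h, sub_self]
      have : ∀ u, f ((ww P b k u).arg) * kerF P (P.gm b) k u = 0 := by
        intro u
        rw [h, kerF_self, mul_zero]
      simp only [this, intervalIntegral.integral_zero]
    · rw [if_neg h, sub_zero]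
      exact ftc_side P b k.2 (fun h' => h (Fin.ext h'.symm)) hU hf
  rw [Finset.sum_congr rfl (fun k _ => hterm k), Finset.sum_sub_distrib,
    Finset.sum_ite_eq' Finset.univ b.1, if_pos (Finset.mem_univ _), AA_self, AA_succ]
  have htel : ∑ k : Fin P.N, (U (AA P b ((k : ℕ) + 1)) - U (AA P b k)) / Real.pi = 0 := by
    rw [← Finset.sum_div]
    rw [Fin.sum_univ_eq_sum_range (fun k => U (AA P b (k + 1)) - U (AA P b k)) P.N,
      Finset.sum_range_sub (fun k => U (AA P b k))]
    have : AA P b P.N = AA P b 0 := by unfold AA; rw [P.closed]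
    rw [this, sub_self, zero_div]
  rw [htel]
  ring

/-! ## Integrals over the boundary -/

lemma measurable_X {G : Fin P.N → ℝ → ℝ} (hG : ∀ k, Measurable (G k)) :
    Measurable (fun x : P.X => G x.1 x.2) := by
  have : Measurable (fun x : Fin P.N × ℝ => G x.1 x.2) :=
    measurable_from_prod_countable_right fun k => hG k
  exact this.comp (measurable_fst.prodMk (measurable_subtype_coe.comp measurable_snd))

instance : IsFiniteMeasure (Measure.comap Subtype.val (volume : Measure ℝ) :
    Measure (Set.Ioo (0 : ℝ) 1)) := by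
  constructor
  rw [comap_subtype_coe_apply measurableSet_Ioo, Set.image_univ, Subtype.range_coe,
    Real.volume_Ioo]
  exact ENNReal.ofReal_lt_top

lemma int_ds {G : Fin P.N → ℝ → ℝ} (hG : ∀ k, Measurable (G k))
    (hi : ∀ k, IntegrableOn (G k) (Ioo 0 1)) :
    Integrable (fun x : P.X => G x.1 x.2) P.ds ∧
    ∫ x, G x.1 x.2 ∂P.ds = ∑ k : Fin P.N, ∫ u in (0 : ℝ)..1, G k u := by
  have hI : ∀ k, Integrable (fun y : Ioo (0 : ℝ) 1 => G k y)
      (Measure.comap Subtype.val (volume : Measure ℝ)) := by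
    intro k
    exact (integrableOn_iff_comap_subtypeVal measurableSet_Ioo).1 (hi k)
  have h1 : Integrable (fun x : P.X => G x.1 x.2) P.ds := by
    unfold CPoly.ds
    rw [integrable_prod_iff (measurable_X P hG).aestronglyMeasurable]
    refine ⟨Eventually.of_forall fun k => hI k, Integrable.of_finite⟩
  refine ⟨h1, ?_⟩
  unfold CPoly.ds at h1 ⊢
  rw [integral_prod _ h1, integral_count]
  refine Finset.sum_congr rfl fun k _ => ?_
  rw [integral_subtype_comap measurableSet_Ioo (fun y => G k y),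
    intervalIntegral.integral_of_le zero_le_one, integral_Ioc_eq_integral_Ioo]

lemma measurable_kerF (w : ℂ) (k : ℕ) : Measurable (fun u : ℝ => kerF P w k u) := by
  unfold kerF zz
  refine Measurable.div_const (Complex.measurable_im.comp ?_) _
  refine measurable_const.div ?_
  exact ((((Complex.measurable_ofReal).mul_const _).const_add _).sub_const _)

lemma measurable_ker (w : ℂ) : Measurable (P.ker w) := by
  have := measurable_X P (G := fun k u => kerF P w k u) (fun k => measurable_kerF P w k)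
  exact this

lemma measurable_arg_ww (b : P.X) (k : ℕ) : Measurable (fun u : ℝ => (ww P b k u).arg) := by
  refine Complex.measurable_arg.comp ?_
  unfold ww zz
  exact (((((Complex.measurable_ofReal).mul_const _).const_add _).sub_const _).div_const _)

lemma ang_eq (b x : P.X) : P.ang b x = (ww P b x.1 x.2).arg := rfl

lemma measurable_ang (b : P.X) : Measurable (P.ang b) := by
  have := measurable_X P (G := fun k u => (ww P b k u).arg) (fun k => measurable_arg_ww P b k)
  exact this

/-- the main integral formula -/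
lemma main_int (b : P.X) {U f : ℝ → ℝ} (hU : ∀ t, HasDerivAt U (f t) t) (hf : Continuous f)
    {C : ℝ} (hC : ∀ t, |f t| ≤ C) :
    Integrable (fun x => f (P.ang b x) * P.ker (P.gm b) x) P.ds ∧
    ∫ x, f (P.ang b x) * P.ker (P.gm b) x ∂P.ds = (U Real.pi - U 0) / Real.pi := by
  have hG : ∀ k : Fin P.N, Measurable
      (fun u => f ((ww P b k u).arg) * kerF P (P.gm b) k u) := fun k =>
    (hf.measurable.comp (measurable_arg_ww P b k)).mul (measurable_kerF P _ k)
  have hi : ∀ k : Fin P.N, IntegrableOn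
      (fun u => f ((ww P b k u).arg) * kerF P (P.gm b) k u) (Ioo 0 1) := by
    intro k
    by_cases h : k = b.1
    · have : (fun u => f ((ww P b k u).arg) * kerF P (P.gm b) k u) = fun _ => 0 := by
        funext u
        rw [h, kerF_self, mul_zero]
      rw [this]
      exact integrableOn_zero
    · have hne : (b.1 : ℕ) ≠ k := fun h' => h (Fin.ext h'.symm)
      have hk := (kerF_cont P b k.2 hne).integrableOn_Icc (μ := volume) (a := 0) (b := 1)
      have hk' : IntegrableOn (fun u => kerF P (P.gm b) k u) (Ioo 0 1) :=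
        hk.mono_set Ioo_subset_Icc_self
      refine Integrable.mono' (g := fun u => C * |kerF P (P.gm b) k u|) (hk'.abs.const_mul C)
        (hG k).aestronglyMeasurable (Eventually.of_forall fun u => ?_)
      rw [Real.norm_eq_abs, abs_mul]
      exact mul_le_mul_of_nonneg_right (hC _) (abs_nonneg _)
  obtain ⟨h1, h2⟩ := int_ds P hG hi
  refine ⟨h1, ?_⟩
  rw [← sum_sides P b hU hf, ← h2]
  rfl

theorem pm_nonneg (w : ℂ) (hw : ∀ j, j < P.N → 0 ≤ crs (P.side j) (w - P.v j)) (x : P.X) :
    0 ≤ P.ker w x := kerF_nonneg P (hw x.1 x.1.2) _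

theorem pm_nonneg' (b x : P.X) : 0 ≤ P.ker (P.gm b) x :=
  pm_nonneg P _ (fun _ hj => crs_gm P b hj) x

theorem pm_prob (b : P.X) : IsProbabilityMeasure (P.Pm b) := by
  constructor
  unfold CPoly.Pm
  rw [withDensity_apply _ MeasurableSet.univ, Measure.restrict_univ]
  obtain ⟨h1, h2⟩ := main_int P b (U := fun t => t) (f := fun _ => 1)
    (fun t => hasDerivAt_id t) continuous_const (C := 1) (fun _ => by simp)
  simp only [one_mul, sub_zero] at h1 h2
  rw [div_self Real.pi_ne_zero] at h2
  rw [← ofReal_integral_eq_lintegral_ofReal h1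
    (Eventually.of_forall fun x => pm_nonneg' P b x), h2, ENNReal.ofReal_one]

/-- **PM** -/
theorem st_PM : ST_PM := fun P => ⟨pm_nonneg P, pm_nonneg' P, pm_prob P⟩

/-- **DIR** -/
theorem st_DIR : ST_DIR := by
  intro P b
  have hpr := pm_prob P b
  have hpi := Real.pi_pos
  have : IsFiniteMeasure ((P.Pm b).map (P.ang b)) := by infer_instance
  have : IsFiniteMeasure (ENNReal.ofReal (1 / Real.pi) •
      ((volume : Measure ℝ).restrict (Set.Ioo 0 Real.pi))) := by
    constructor
    rw [Measure.smul_apply, Measure.restrict_apply_univ, Real.volume_Ioo, smul_eq_mul]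
    exact ENNReal.mul_lt_top ENNReal.ofReal_lt_top ENNReal.ofReal_lt_top
  refine ext_of_forall_integral_eq_of_IsFiniteMeasure fun f => ?_
  rw [integral_map (measurable_ang P b).aemeasurable
    f.continuous.measurable.aestronglyMeasurable]
  have hden : Measurable (fun x => P.ker (P.gm b) x) := measurable_ker P _
  have e1 : ∫ x, f (P.ang b x) ∂(P.Pm b) = ∫ x, f (P.ang b x) * P.ker (P.gm b) x ∂P.ds := by
    unfold CPoly.Pm
    rw [integral_withDensity_eq_integral_toReal_smul hden.ennreal_ofReal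
      (Eventually.of_forall fun x => ENNReal.ofReal_lt_top)]
    refine integral_congr_ae (Eventually.of_forall fun x => ?_)
    simp only [smul_eq_mul]
    rw [ENNReal.toReal_ofReal (pm_nonneg' P b x), mul_comm]
  have hU : ∀ t, HasDerivAt (fun t => ∫ s in (0 : ℝ)..t, f s) (f t) t := fun t =>
    intervalIntegral.integral_hasDerivAt_right (f.continuous.intervalIntegrable _ _)
      f.continuous.measurable.stronglyMeasurable.stronglyMeasurableAtFilter
      f.continuous.continuousAt
  obtain ⟨-, h2⟩ := main_int P b hU f.continuous (C := ‖f‖) (fun t => f.norm_coe_le_norm t)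
  rw [e1, h2, integral_smul_measure, ENNReal.toReal_ofReal (by positivity),
    intervalIntegral.integral_same, sub_zero, intervalIntegral.integral_of_le hpi.le,
    integral_Ioc_eq_integral_Ioo, smul_eq_mul]
  ring

end

end Pool.Agent.Helper12.CP
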